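import Pool.Agent.Y163.MW.Base

/-! Project MW, job MW-B2: the representation of `sl(2)` given by strings. -/

set_option autoImplicit false

open Module

namespace Pool.Agent.Y664.MW

open Pool.Agent.Y163.MW

universe u v

variable {K : Type u} [Field K] {V : Type v} [AddCommGroup V] [Module K V]
  {gr : ℤ → Submodule K V} {N : Module.End K V}

/-- the vectors of the string `s`, continued by zero -/
noncomputable def cv (S : Strings gr N) (s : S.ι) (j : ℕ) : V :=
  if h : j < S.len s + 1 then S.b ⟨s, ⟨j, h⟩⟩ else 0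

lemma b_eq (S : Strings gr N) (s : S.ι) (i : Fin (S.len s + 1)) :
    S.b ⟨s, i⟩ = cv S s i := by
  unfold cv
  rw [dif_pos i.2]

lemma cv_lt (S : Strings gr N) (s : S.ι) {j : ℕ} (h : j < S.len s + 1) :
    cv S s j = S.b ⟨s, ⟨j, h⟩⟩ := dif_pos h

lemma cv_ge (S : Strings gr N) (s : S.ι) {j : ℕ} (h : S.len s + 1 ≤ j) :
    cv S s j = 0 := dif_neg (by omega)

lemma N_cv (S : Strings gr N) (s : S.ι) (j : ℕ) : N (cv S s j) = cv S s (j + 1) := by
  rcases lt_trichotomy j (S.len s) with h | h | h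
  · rw [cv_lt S s (by omega : j < S.len s + 1), cv_lt S s (by omega : j + 1 < S.len s + 1)]
    exact S.succ s ⟨j, h⟩
  · subst h
    rw [cv_lt S s (by omega : S.len s < S.len s + 1), cv_ge S s le_rfl]
    exact S.last s
  · rw [cv_ge S s (by omega), cv_ge S s (by omega), map_zero]

/-- the weight operator -/
noncomputable def hop (S : Strings gr N) : Module.End K V :=
  S.b.constr K fun p => (((S.len p.1 : ℤ) - 2 * ((p.2 : ℕ) : ℤ) : ℤ) : K) • S.b p

/-- the raising operator -/
noncomputable def eop (S : Strings gr N) : Module.End K V :=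
  S.b.constr K fun p => if (p.2 : ℕ) = 0 then 0 else
    (((p.2 : ℕ) : K) * ((S.len p.1 : K) - (p.2 : ℕ) + 1)) • cv S p.1 ((p.2 : ℕ) - 1)

lemma h_b (S : Strings gr N) (p : Σ s : S.ι, Fin (S.len s + 1)) :
    hop S (S.b p) = (((S.len p.1 : ℤ) - 2 * ((p.2 : ℕ) : ℤ) : ℤ) : K) • S.b p :=
  S.b.constr_basis K _ p

lemma h_cv (S : Strings gr N) (s : S.ι) (j : ℕ) :
    hop S (cv S s j) = ((S.len s : K) - 2 * (j : K)) • cv S s j := by
  by_cases h : j < S.len s + 1
  · rw [cv_lt S s h, h_b]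
    push_cast
    rfl
  · rw [cv_ge S s (by omega), map_zero, smul_zero]

lemma e_cv0 (S : Strings gr N) (s : S.ι) : eop S (cv S s 0) = 0 := by
  rw [cv_lt S s (by omega : 0 < S.len s + 1)]
  have h := S.b.constr_basis K (fun p : Σ s : S.ι, Fin (S.len s + 1) =>
    if (p.2 : ℕ) = 0 then 0 else
    (((p.2 : ℕ) : K) * ((S.len p.1 : K) - (p.2 : ℕ) + 1)) • cv S p.1 ((p.2 : ℕ) - 1))
    ⟨s, ⟨0, by omega⟩⟩
  exact h.trans (if_pos rfl)

lemma e_cv (S : Strings gr N) (s : S.ι) (j : ℕ) :
    eop S (cv S s (j + 1)) = (((j : K) + 1) * ((S.len s : K) - j)) • cv S s j := by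
  by_cases h : j + 1 < S.len s + 1
  · rw [cv_lt S s h]
    have h1 := S.b.constr_basis K (fun p : Σ s : S.ι, Fin (S.len s + 1) =>
      if (p.2 : ℕ) = 0 then 0 else
      (((p.2 : ℕ) : K) * ((S.len p.1 : K) - (p.2 : ℕ) + 1)) • cv S p.1 ((p.2 : ℕ) - 1))
      ⟨s, ⟨j + 1, h⟩⟩
    refine h1.trans ((if_neg (Nat.succ_ne_zero j)).trans ?_)
    simp only [Nat.add_sub_cancel]
    push_cast
    congr 1
    ring
  · rw [cv_ge S s (by omega), map_zero]
    rcases Nat.lt_or_ge j (S.len s + 1) with h1 | h1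
    · have h2 : j = S.len s := by omega
      rw [h2, sub_self, mul_zero, zero_smul]
    · rw [cv_ge S s h1, smul_zero]

/-- Job MW-B2. -/
theorem t_B2 : StB2.{u, v} := by
  intro K _ _ V _ _ gr N S
  refine ⟨eop S, hop S, ?_, ?_, ?_, ?_⟩
  · intro p
    exact h_b S p
  · refine S.b.ext fun p => ?_
    obtain ⟨s, i⟩ := p
    rw [b_eq, LinearMap.sub_apply, Module.End.mul_apply, Module.End.mul_apply, N_cv, e_cv, h_cv]
    obtain ⟨j, hj⟩ := i
    simp only
    cases j with
    | zero =>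
      rw [e_cv0, map_zero, sub_zero]
      congr 1
      push_cast
      ring
    | succ j =>
      rw [e_cv, map_smul, N_cv, ← sub_smul]
      congr 1
      push_cast
      ring
  · refine S.b.ext fun p => ?_
    obtain ⟨s, i⟩ := p
    rw [b_eq, LinearMap.sub_apply, Module.End.mul_apply, Module.End.mul_apply, LinearMap.smul_apply,
      h_cv, map_smul, N_cv, h_cv, ← sub_smul]
    congr 1
    push_cast
    ring
  · refine S.b.ext fun p => ?_
    obtain ⟨s, i⟩ := p
    rw [b_eq, LinearMap.sub_apply, Module.End.mul_apply, Module.End.mul_apply, LinearMap.smul_apply,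
      h_cv, map_smul]
    obtain ⟨j, hj⟩ := i
    simp only
    cases j with
    | zero => rw [e_cv0]; simp
    | succ j =>
      rw [e_cv, map_smul, h_cv, smul_smul, smul_smul, smul_smul, ← sub_smul]
      congr 1
      push_cast
      ring

end Pool.Agent.Y664.MW
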